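import Mathlib
import Pool.Agent.H77.TF.Stm4
import Pool.Agent.H27.TF.Sai
import Pool.Agent.H15.TF.CIB

/-!
# Project TD, module NUB: a form of degree `u` gives freeness
-/

set_option autoImplicit false

open MvPolynomial Module

namespace Pool.Agent.H57.TD

open Pool.Agent.H77.TF
open Pool.Agent.H15.TF (comp_mul lin_hom evl_hom evl_frob0)

variable {K : Type} [Field K] {ν : Type}

/-- `2 C(n+2, 2) = (n + 1)(n + 2)` over the integers -/
theorem two_choose (n : ℕ) : (2 : ℤ) * ((n + 2).choose 2 : ℕ) = (n + 1) * (n + 2) := by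
  have h : (n + 2).choose 2 * 2 = (n + 2) * (n + 1) := by
    rw [Nat.choose_two_right]
    have : (n + 2) * (n + 2 - 1) = (n + 2) * (n + 1) := rfl
    rw [this]
    exact Nat.div_mul_cancel (by
      have := Nat.even_mul_succ_self (n + 1)
      rw [mul_comm]
      exact this.two_dvd)
  have h' : (((n + 2).choose 2 : ℕ) : ℤ) * 2 = (n + 2) * (n + 1) := by exact_mod_cast h
  linarith

/-- the numerical identity for the dimension -/
theorem dim_id (u w : ℕ) (hu : 1 ≤ u) :
    (u + w + 2).choose 2 + (u - 1).choose 2 = u * (u + w) + ((w + 2).choose 2 + 1) := by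
  have h1 := two_choose (u + w)
  have h2 := two_choose w
  obtain ⟨t, rfl⟩ : ∃ t, u = t + 1 := ⟨u - 1, by omega⟩
  have h3 : (2 : ℤ) * ((t + 1 - 1).choose 2 : ℕ) = t * (t - 1) := by
    rw [Nat.add_sub_cancel]
    rcases t with _ | t
    · simp
    · rcases t with _ | t
      · simp
      · have := two_choose t
        push_cast at this ⊢
        linarith
  have : ((((t + 1) + w + 2).choose 2 + (t + 1 - 1).choose 2 : ℕ) : ℤ) =
      (((t + 1) * (t + 1 + w) + ((w + 2).choose 2 + 1) : ℕ) : ℤ) := by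
    push_cast at h1 h2 h3 ⊢
    nlinarith [h1, h2, h3]
  exact_mod_cast this

/-- multiplication by a form -/
theorem exists_not_dvd [Fintype K] (hDIM : S_DIM) {u w : ℕ} {f : MvPolynomial (Fin 3) K}
    (hf : f.IsHomogeneous u) (H : Submodule K (MvPolynomial (Fin 3) K))
    (hH : ∀ g ∈ H, g.IsHomogeneous (u + w))
    (hd : (w + 2).choose 2 + 1 ≤ finrank K H) : ∃ g ∈ H, ¬ f ∣ g := by
  by_contra hcon
  push Not at hcon
  obtain ⟨hfin, hrk⟩ := hDIM K w
  set M : Submodule K (MvPolynomial (Fin 3) K) :=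
    (homogeneousSubmodule (Fin 3) K w).map (LinearMap.mulLeft K f) with hM
  have h1 : H ≤ M := by
    intro g hg
    obtain ⟨h, hh⟩ := hcon g hg
    refine ⟨homogeneousComponent w h, homogeneousComponent_mem _ _, ?_⟩
    have h2 := comp_mul f h u w hf
    rw [← hh, homogeneousComponent_eq_self (hH g hg)] at h2
    simpa using h2.symm
  haveI : Module.Finite K (homogeneousSubmodule (Fin 3) K w) := hfin
  haveI : Module.Finite K M := by
    rw [hM]
    infer_instance
  have h2 : finrank K H ≤ finrank K M := Submodule.finrank_mono h1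
  have h3 : finrank K M ≤ (w + 2).choose 2 := by
    rw [← hrk]
    exact Submodule.finrank_map_le _ _
  omega

theorem nub (hPRI : S_PRI) (hDET : S_DET) (hSAI : S_SAI) (hDIM : S_DIM) (hEVD : S_EVD)
    (hORT : S_ORT) (hLFT : S_LFT) (hPRM : S_PRM) : S_NUB := by
  intro K _ _ ν _ _ A u v hA hu huv hvq hsum hunc hmin hne
  obtain ⟨f, hfm, hf0⟩ := (Submodule.ne_bot_iff _).1 hne
  obtain ⟨w, rfl⟩ : ∃ w, v = u + w := ⟨v - u, by omega⟩
  obtain ⟨i₀⟩ : Nonempty ν := inferInstance
  set q := Fintype.card K with hq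
  set n := Fintype.card ν with hn
  set Q : MvPolynomial (Fin 3) K := ∏ i, lin (A i) with hQ
  have hQne : Q ≠ 0 := Finset.prod_ne_zero_iff.2 fun i _ => (hPRI K 3 (A i) (hA.1 i)).1.ne_zero
  have hQh : Q.IsHomogeneous n := by
    have := MvPolynomial.IsHomogeneous.prod (Finset.univ : Finset ν) (fun i => lin (A i))
      (fun _ => 1) (fun i _ => lin_hom (A i))
    simpa [hQ] using this
  -- the dimension
  have hdim : (w + 2).choose 2 + 1 ≤ finrank K (Hv A (u + w)) := by
    have hid := dim_id u w hu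
    rcases Nat.lt_or_ge u 3 with h3 | h3
    · have h4 := (hEVD K ν A (u + w)).1
      have h5 : (u - 1).choose 2 = 0 := Nat.choose_eq_zero_of_lt (by omega)
      rw [hunc] at h4
      omega
    · have h4 := hORT K ν A (u + w) (u - 3) (by omega)
      rw [hmin (u - 3) (by omega), finrank_bot, hunc] at h4
      have h5 : u - 3 + 2 = u - 1 := by omega
      rw [h5] at h4
      omega
  obtain ⟨g, hgm, hfg⟩ := exists_not_dvd hDIM hfm.1 (Hv A (u + w)) (fun g hg => hg.1) hdim
  obtain ⟨φ, hφL, hφh, hφe, hφD⟩ := hLFT K ν A i₀ u (q - (u + w)) f hA hfm (by omega)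
  obtain ⟨ψ, hψL, hψh, hψe, hψD⟩ := hLFT K ν A i₀ (u + w) (q - u) g hA hgm (by omega)
  have hE0 : E3 φ ψ ≠ 0 := fun h =>
    hfg (hPRM K ν A i₀ u f g φ ψ hA hfm.1 hf0 hmin hφe hψe hφD hψD h)
  have hF : frob K 3 0 ∈ LD A := by
    intro i
    rw [evl_frob0]
  have hFh : ∀ i, (frob K 3 0 i).IsHomogeneous 1 := by
    intro i
    simpa [frob] using isHomogeneous_X K i
  have hdvd : Q ∣ E3 φ ψ := by
    refine Pool.Agent.H27.TF.prod_dvd hPRI hA Finset.univ fun i _ => ?_
    refine hDET K 3 (A i) (hA.1 i) ![frob K 3 0, φ, ψ] ?_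
    intro k
    fin_cases k
    · exact hF i
    · exact hφL i
    · exact hψL i
  have hEh : (E3 φ ψ).IsHomogeneous n := by
    have e : 1 + (q - (u + w)) + (q - u) = n := by omega
    have t3 : ∀ a b c : Fin 3, (frob K 3 0 a * φ b * ψ c).IsHomogeneous n := by
      intro a b c
      rw [← e]
      exact ((hFh a).mul (hφh b)).mul (hψh c)
    unfold E3
    rw [Matrix.det_fin_three]
    simp only [Matrix.of_apply, Matrix.cons_val_zero, Matrix.cons_val_one, Matrix.cons_val]
    exact (((((t3 0 1 2).sub (t3 0 2 1)).sub (t3 1 0 2)).add (t3 1 2 0)).add (t3 2 0 1)).sub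
      (t3 2 1 0)
  obtain ⟨c, hc⟩ := hdvd
  have hk : E3 φ ψ = C (coeff 0 c) * Q := by
    have h1 := comp_mul Q c n 0 hQh
    rw [← hc, add_zero, homogeneousComponent_eq_self hEh, homogeneousComponent_zero] at h1
    rw [h1, mul_comm]
  have hk0 : coeff 0 c ≠ 0 := by
    intro h
    rw [h, C_0, zero_mul] at hk
    exact hE0 hk
  have hdet : (Matrix.of ![frob K 3 0, ψ, φ]).det = C (-(coeff 0 c)) * Q := by
    have h1 : (Matrix.of ![frob K 3 0, ψ, φ]).det = - E3 φ ψ := by
      unfold E3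
      rw [Matrix.det_fin_three, Matrix.det_fin_three]
      simp only [Matrix.of_apply, Matrix.cons_val_zero, Matrix.cons_val_one, Matrix.cons_val]
      ring
    rw [h1, hk, C_neg]
    ring
  obtain ⟨b, hb⟩ := hSAI K 3 ν A hA ![frob K 3 0, ψ, φ] (-(coeff 0 c)) (neg_ne_zero.2 hk0)
    (by
      intro k
      fin_cases k
      · exact hF
      · exact hψL
      · exact hφL) hdet
  refine ⟨b, ?_⟩
  intro j i
  rw [hb j]
  fin_cases j
  · exact hFh i
  · exact hψh i
  · exact hφh i

end Pool.Agent.H57.TD
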